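import Pool.Agent.Q295.BZ.Mai
import Pool.Agent.Q79.BZ.Exb
import Pool.Agent.Q79.BZ.Pwc
import Pool.Agent.Q79.BZ.Prm
import Pool.Agent.Q79.BZ.Prz
import Pool.Agent.Q79.BZ.Ctm
import Pool.Agent.Q79.BZ.Int
import Pool.Agent.Q79.BZ.Ito
import Pool.Agent.Q121.BZ.Msr
import Pool.Agent.Q121.BZ.NulP
import Pool.Agent.Q121.BZ.Goo
import Pool.Agent.Q121.BZ.Lps
import Pool.Agent.Q121.BZ.Mom
import Pool.Agent.Q153.BZ.Gen
import Pool.Agent.Q153.BZ.Dom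
import Pool.Agent.Q166.BZ.Cbx
import Pool.Agent.Q237.BZ.Pth
import Pool.Agent.Q237.BZ.Max
import Pool.Agent.Q237.BZ.Bnd
import Pool.Agent.Q237.BZ.Tel

/-!
# MP_3fc9e2_pr, Q1: non-uniqueness of `L^p` solutions of the BSDE with generator `|z| sin |z|`

For every dimension `d ≥ 1`, every horizon `T > 0` and every Brownian motion there is a terminal
value `ξ` in all the spaces `L^p` for which the equation has two solutions `(Y, Z)`, `(Y', Z')` with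
`Y_0 = 0` and `Y'_0 = -1`, and the suprema of `|Y|` and `|Y'|` are in all the spaces `L^p`, so that
`|Y|^p` and `|Y'|^p` are of class (D).
-/

set_option autoImplicit false

namespace Pool.Agent.Results.MP_3fc9e2_pr.TwoSolutions

open MeasureTheory ProbabilityTheory Set Filter
open scoped NNReal ENNReal Topology
open Pool.Agent.Q295.BZ
open Pool.Agent.Helper807.BS (ClassD)

universe u

/-- The statement of Q1 (for the processes `Y` alone) for the exponent `p`, on the space `(Ω, P)`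
with the Brownian motion `B` and the time interval `[0, T]`: for each `ξ` in `L^p` any two solutions
`(Y, Z)`, `(Y', Z')` with terminal value `ξ`, for which `|Y|^p` and `|Y'|^p` are of class (D), have
indistinguishable `Y` and `Y'`. -/
def Uniqueness {Ω : Type u} [MeasurableSpace Ω] {d : ℕ} (P : Measure Ω)
    (B : Fin d → ℝ≥0 → Ω → ℝ) (T p : ℝ) : Prop :=
  ∀ (ξ : Ω → ℝ) (Y Y' : ℝ → Ω → ℝ) (Z Z' : Fin d → ℝ → Ω → ℝ),
    Measurable[Fil B P T, borel ℝ] ξ → Integrable (fun ω => |ξ ω| ^ p) P →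
    IsSol T P B gen ξ Y Z → IsSol T P B gen ξ Y' Z' →
    ClassD T P (Fil B P) (fun t ω => |Y t ω| ^ p) →
    ClassD T P (Fil B P) (fun t ω => |Y' t ω| ^ p) →
    ∀ᵐ ω ∂P, ∀ t ∈ Icc (0 : ℝ) T, Y t ω = Y' t ω

/-- **(1)** On every probability space with a `d`-dimensional Brownian motion, `d ≥ 1`, for every
`T > 0`, there are an `F_T`-measurable `ξ` and two solutions `(Y, Z)`, `(Y', Z')` of
`Y_t = ξ + ∫_t^T |Z_s| sin |Z_s| ds - ∫_t^T Z_s · dB_s` with `Y_0 = 0`, `Y'_0 = -1`, and a random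
variable `S` with `|Y_t|, |Y'_t| ≤ S` for all `t`, such that for all `p ≥ 0`: `E |ξ|^p < ∞`,
`E S^p < ∞`, and `|Y|^p`, `|Y'|^p` are of class (D). So uniqueness fails for every `p`.
**(2)** A `d`-dimensional Brownian motion exists on some complete probability space. -/
theorem result :
    (∀ (Ω : Type u) [MeasurableSpace Ω] (P : Measure Ω) [IsProbabilityMeasure P] (d : ℕ)
      (B : Fin d → ℝ≥0 → Ω → ℝ) (T : ℝ), 1 ≤ d → IsBM B P → 0 < T →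
      (∃ (ξ : Ω → ℝ) (Y Y' : ℝ → Ω → ℝ) (Z Z' : Fin d → ℝ → Ω → ℝ) (S : Ω → ℝ),
        Measurable[Fil B P T, borel ℝ] ξ ∧
        IsSol T P B gen ξ Y Z ∧ IsSol T P B gen ξ Y' Z' ∧
        (∀ ω, Y 0 ω = 0) ∧ (∀ ω, Y' 0 ω = -1) ∧
        (∀ ω, ∀ t ∈ Icc (0 : ℝ) T, |Y t ω| ≤ S ω ∧ |Y' t ω| ≤ S ω) ∧
        ∀ p : ℝ, 0 ≤ p → Integrable (fun ω => |ξ ω| ^ p) P ∧ Integrable (fun ω => S ω ^ p) P ∧
          ClassD T P (Fil B P) (fun t ω => |Y t ω| ^ p) ∧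
          ClassD T P (Fil B P) (fun t ω => |Y' t ω| ^ p)) ∧
      ∀ p : ℝ, 0 ≤ p → ¬ Uniqueness P B T p) ∧
    ∀ d : ℕ, ∃ (Ω : Type) (_ : MeasurableSpace Ω) (P : Measure Ω) (B : Fin d → ℝ≥0 → Ω → ℝ),
      IsProbabilityMeasure P ∧ P.IsComplete ∧ IsBM B P := by
  refine ⟨fun Ω _ P _ d B T hd hB hT => ?_, Pool.Agent.Q79.BZ.exb⟩
  obtain ⟨ξ, Y, Y', Z, Z', S, h1, h2, h3, h4, h5, h6, h7⟩ := two_solutions
    Pool.Agent.Q166.BZ.cbx Pool.Agent.Q79.BZ.pwc Pool.Agent.Q79.BZ.prm Pool.Agent.Q79.BZ.prz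
    Pool.Agent.Q79.BZ.ctm Pool.Agent.Q79.BZ.ito Pool.Agent.Q79.BZ.int Pool.Agent.Q237.BZ.pth
    Q121.BZ.msr Q121.BZ.nul Q121.BZ.goo Pool.Agent.Q237.BZ.max
    Q121.BZ.lps Q121.BZ.mom Pool.Agent.Q237.BZ.bnd Pool.Agent.Q237.BZ.tel
    Pool.Agent.Q153.BZ.gen Pool.Agent.Q153.BZ.dom P hd B hB T hT
  refine ⟨⟨ξ, Y, Y', Z, Z', S, h1, h2, h3, h4, h5, h6, h7⟩, fun p hp hu => ?_⟩
  have h8 := hu ξ Y Y' Z Z' h1 (h7 p hp).1 h2 h3 (h7 p hp).2.2.1 (h7 p hp).2.2.2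
  obtain ⟨ω, hω⟩ := h8.exists
  have h9 := hω 0 ⟨le_rfl, hT.le⟩
  rw [h4 ω, h5 ω] at h9
  norm_num at h9

end Pool.Agent.Results.MP_3fc9e2_pr.TwoSolutions
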